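import Pool.Agent.Helper684.GE.Defs
import Pool.Agent.Helper684.GX.Ergo.DefsCore
import Pool.Agent.Helper684.GX.Ergo.M2p
import Pool.Agent.Helper684.GX.Ergo.Calc3

/-!
Comparison of the definitions, first part: derivatives, foliations, leaves.
-/

set_option autoImplicit false

open scoped Manifold
open Metric MeasureTheory Set Filter Topology
open Pool.Agent.Helper684.GX

namespace Pool.Agent.Helper684.GE

variable {E M : Type*} [NormedAddCommGroup E] [NormedSpace ℂ E] [TopologicalSpace M]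
  [ChartedSpace E M]

theorem velocity_eq {ψ : ℂ → M} {ξ : ℂ} (hψ : MDifferentiableAt 𝓘(ℂ, ℂ) 𝓘(ℂ, E) ψ ξ) :
    velocity (E := E) ψ ξ = Nev.discDeriv (E := E) ψ ξ 1 := by
  have h : mfderiv 𝓘(ℂ, ℂ) 𝓘(ℂ, E) ψ ξ =
      (fderiv ℂ (fun z => chartAt E (ψ ξ) (ψ z)) ξ : ℂ →L[ℂ] E) := by
    rw [mfderiv, if_pos hψ]
    simp only [mfld_simps]
    rw [fderivWithin_univ]
    rfl
  unfold velocity Nev.discDeriv
  rw [h]
  rfl

theorem mfderiv_chart_apply {e : M → E} {x : M}
    (he : MDifferentiableAt 𝓘(ℂ, E) 𝓘(ℂ, E) e x) (v : E) :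
    DifferentiableAt ℂ (fun y => e ((chartAt E x).symm y)) (chartAt E x x) ∧
    (mfderiv 𝓘(ℂ, E) 𝓘(ℂ, E) e x v : E) =
      fderiv ℂ (fun y => e ((chartAt E x).symm y)) (chartAt E x x) v := by
  have hd : DifferentiableAt ℂ (fun y => e ((chartAt E x).symm y)) (chartAt E x x) := by
    have h1 := he.differentiableWithinAt_writtenInExtChartAt
    simp only [mfld_simps] at h1
    exact differentiableWithinAt_univ.1 h1
  refine ⟨hd, ?_⟩
  have h : mfderiv 𝓘(ℂ, E) 𝓘(ℂ, E) e x =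
      (fderiv ℂ (fun y => e ((chartAt E x).symm y)) (chartAt E x x) : E →L[ℂ] E) := by
    rw [mfderiv, if_pos he]
    simp only [mfld_simps]
    rw [fderivWithin_univ]
    rfl
  rw [h]
  rfl

theorem deriv_line {f : E → E} {y : E} (hf : DifferentiableAt ℂ f y) (v : E) :
    deriv (fun ζ : ℂ => f (y + ζ • v)) 0 = fderiv ℂ f y v := by
  have hd : HasDerivAt (fun ζ : ℂ => y + ζ • v) v 0 := by
    simpa using ((hasDerivAt_id (0 : ℂ)).smul_const v).const_add y
  have h0 : y + (0 : ℂ) • v = y := by rw [zero_smul, add_zero]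
  have hf' : HasFDerivAt f (fderiv ℂ f y) (y + (0 : ℂ) • v) := by
    rw [h0]; exact hf.hasFDerivAt
  exact (HasFDerivAt.comp_hasDerivAt (0 : ℂ) hf' hd).deriv

theorem dirDeriv_eq {e : OpenPartialHomeomorph M E} {x : M} (he : Nev.IsHolChartAt e x) (v : E) :
    dirDeriv e x v = Nev.chartDeriv (E := E) e x v := by
  have h1 := mfderiv_chart_apply (Nev.chart_mdiff he) v
  unfold Nev.chartDeriv dirDeriv
  exact (deriv_line h1.1 v).trans h1.2.symm

theorem generatedOn_iff {sing : Set M} {dir : M → Set E} {e : OpenPartialHomeomorph M E}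
    (he : e ∈ IsManifold.maximalAtlas 𝓘(ℂ, E) 1 M) {Z : E → E} :
    GeneratedOn sing dir e Z ↔ Nev.GeneratedOn (E := E) sing dir e Z := by
  unfold GeneratedOn Nev.GeneratedOn
  refine forall_congr' fun x => forall_congr' fun hx => ?_
  refine and_congr Iff.rfl (imp_congr Iff.rfl (forall_congr' fun v => iff_congr Iff.rfl ?_))
  rw [dirDeriv_eq ⟨he, hx⟩ v]

/-- the regular foliation -/
def toFol (F : SingularFoliation E M) : Nev.Foliation E M where
  sing := F.sing
  isClosed_sing := F.isClosed_sing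
  dir := F.dir
  flowBox x hx := by
    obtain ⟨e, he, hxe, v, hv, hg⟩ := F.flowBox x hx
    exact ⟨e, ⟨he, hxe⟩, v, hv, (generatedOn_iff he).1 hg⟩

theorem isTangentDisc_iff (F : SingularFoliation E M) (ψ : ℂ → M) :
    F.IsTangentDisc ψ ↔ (toFol F).IsTangentDisc ψ := by
  unfold SingularFoliation.IsTangentDisc Nev.Foliation.IsTangentDisc
  refine and_congr_right fun h => forall_congr' fun ξ => forall_congr' fun hξ =>
    and_congr Iff.rfl ?_
  rw [velocity_eq (h.mdifferentiableAt (isOpen_ball.mem_nhds hξ))]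
  rfl

theorem leafTopology_eq (F : SingularFoliation E M) :
    F.leafTopology = (toFol F).leafTopology := by
  refine TopologicalSpace.ext_iff.2 fun U => ?_
  have h1 : IsOpen[(toFol F).leafTopology] U ↔
      ∀ ψ : ℂ → M, (toFol F).IsTangentDisc ψ → IsOpen (ball (0 : ℂ) 1 ∩ ψ ⁻¹' U) := Iff.rfl
  rw [h1]
  unfold SingularFoliation.leafTopology
  rw [isOpen_iSup_iff]
  have key : ∀ ψ : ℂ → M, IsOpen ((fun ξ : ball (0 : ℂ) 1 => ψ ξ) ⁻¹' U) ↔
      IsOpen (ball (0 : ℂ) 1 ∩ ψ ⁻¹' U) := by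
    intro ψ
    have h2 : (fun ξ : ball (0 : ℂ) 1 => ψ ξ) ⁻¹' U =
        (Subtype.val : ball (0 : ℂ) 1 → ℂ) ⁻¹' (ψ ⁻¹' U) := rfl
    rw [h2, ← Subtype.image_preimage_coe]
    exact (isOpen_ball.isOpenEmbedding_subtypeVal.isOpen_iff_image_isOpen)
  constructor
  · intro h ψ hψ
    exact (key ψ).1 (isOpen_coinduced.1 (h ⟨ψ, (isTangentDisc_iff F ψ).2 hψ⟩))
  · intro h ψ
    exact isOpen_coinduced.2 ((key ψ.1).2 (h ψ.1 ((isTangentDisc_iff F ψ.1).1 ψ.2)))

theorem isUniversalCovering_iff (F : SingularFoliation E M) (φ : ℂ → M) :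
    F.IsUniversalCovering φ ↔ (toFol F).IsUniversalCovering φ := by
  have h1 : (toFol F).IsUniversalCovering φ ↔ (toFol F).IsTangentDisc φ ∧
      (∀ ξ ∈ ball (0 : ℂ) 1, Nev.discDeriv (E := E) φ ξ 1 ≠ 0) ∧
      @IsCoveringMapOn (ball (0 : ℂ) 1) M _ (toFol F).leafTopology (fun ξ => φ ξ)
        (@pathComponent M (toFol F).leafTopology (φ 0)) :=
    ⟨fun h => ⟨h.tangent, h.immersion, h.covering⟩, fun h => ⟨h.1, h.2.1, h.2.2⟩⟩
  rw [h1, ← leafTopology_eq, ← isTangentDisc_iff]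
  unfold SingularFoliation.IsUniversalCovering
  refine and_congr_right fun h => and_congr ?_ Iff.rfl
  refine forall_congr' fun ξ => forall_congr' fun hξ => ?_
  rw [velocity_eq (h.1.mdifferentiableAt (isOpen_ball.mem_nhds hξ))]
  rfl

/-- the singular foliation -/
def toSing [IsManifold 𝓘(ℂ, E) 1 M] (F : SingularFoliation E M) : Ergo.SingularFoliation E M where
  toFoliation := toFol F
  gens := {G | (G.e, G.Z) ∈ F.gens}
  cover x := by
    obtain ⟨G, hG, hx⟩ := F.cover x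
    exact ⟨⟨G.1, F.chart G hG, G.2, F.hol G hG, (generatedOn_iff (F.chart G hG)).1 (F.gen G hG)⟩,
      hG, hx⟩
  compat G hG G' hG' := by
    obtain ⟨g, hg, h⟩ := F.compat _ hG _ hG'
    refine ⟨g, hg, fun y hy => ⟨(h y hy).1, ?_⟩⟩
    have hy' : y ∈ (G.e.symm.trans G'.e).source := hy
    rw [OpenPartialHomeomorph.trans_source] at hy'
    have h1 : MDifferentiableAt 𝓘(ℂ, E) 𝓘(ℂ, E) (fun z => G'.e (G.e.symm z)) y :=
      MDifferentiableAt.comp y (Nev.chart_mdiff ⟨G'.mem, hy'.2⟩) (Nev.chart_symm_mdiff G.mem hy'.1)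
    have h2 : DifferentiableAt ℂ (fun z => G'.e (G.e.symm z)) y :=
      mdifferentiableAt_iff_differentiableAt.1 h1
    have h3 := (h y hy).2
    simp only at h3
    rw [deriv_line h2] at h3
    exact h3

end Pool.Agent.Helper684.GE
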