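import Mathlib

/-!
Definitions for the geometric ergodic theorem for singular holomorphic foliations by curves with
arbitrary singularities.

Throughout, `M` is a complex manifold modelled on the complex vector space `E`, and the tangent
vectors at `x` are the vectors of `E`, read in the preferred chart `chartAt E x` at `x` (the
tangent space `TangentSpace 𝓘(ℂ, E) x` of Mathlib is `E`).
-/

set_option autoImplicit false

open scoped Manifold
open Metric MeasureTheory

namespace Pool.Agent.Helper684.GE

variable {E M : Type*} [NormedAddCommGroup E] [NormedSpace ℂ E] [TopologicalSpace M]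
  [ChartedSpace E M]

/-- The derivative at `x`, in the direction of the tangent vector `v`, of the holomorphic map
`e : M → E`. -/
noncomputable def dirDeriv (e : M → E) (x : M) (v : E) : E :=
  deriv (fun ζ : ℂ => e ((chartAt E x).symm (chartAt E x x + ζ • v))) 0

/-- The velocity vector `ψ' (ξ)`, a tangent vector at `ψ ξ`, of the holomorphic curve
`ψ : ℂ → M`. -/
noncomputable def velocity (ψ : ℂ → M) (ξ : ℂ) : E :=
  deriv (fun z => chartAt E (ψ ξ) (ψ z)) ξ

/-- On the domain of the chart `e`, the tangent lines `dir` with singular set `sing` are generated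
by the vector field whose expression in the coordinates `e` is `Z`. -/
def GeneratedOn (sing : Set M) (dir : M → Set E) (e : OpenPartialHomeomorph M E) (Z : E → E) :
    Prop :=
  ∀ x ∈ e.source, (x ∈ sing ↔ Z (e x) = 0) ∧
    (x ∉ sing → ∀ v : E, v ∈ dir x ↔ ∃ c : ℂ, dirDeriv e x v = c • Z (e x))

/-- A singular holomorphic foliation by Riemann surfaces of the complex manifold `M`, with
singular set `sing`; `dir x` is the tangent line of the foliation at `x`, for `x ∉ sing`.
* Every point outside `sing` has a holomorphic chart (flow box) in which the tangent lines are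
  parallel to a fixed vector `v ≠ 0`.
* The domains of the local generators `G = (e, Z)` in `gens` cover `M`: the vector field `Z` in
  the holomorphic chart `e` is holomorphic, generates the foliation, and its zeros are the points
  of `sing`. Two generators are equal on the overlaps up to a nowhere vanishing holomorphic
  function.
The singular points are arbitrary; in particular they need not be linearizable. -/
structure SingularFoliation (E M : Type*) [NormedAddCommGroup E] [NormedSpace ℂ E]
    [TopologicalSpace M] [ChartedSpace E M] where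
  sing : Set M
  isClosed_sing : IsClosed sing
  dir : M → Set E
  flowBox : ∀ x, x ∉ sing → ∃ e ∈ IsManifold.maximalAtlas 𝓘(ℂ, E) 1 M, x ∈ e.source ∧
    ∃ v : E, v ≠ 0 ∧ GeneratedOn sing dir e (fun _ => v)
  gens : Set (OpenPartialHomeomorph M E × (E → E))
  chart : ∀ G ∈ gens, G.1 ∈ IsManifold.maximalAtlas 𝓘(ℂ, E) 1 M
  hol : ∀ G ∈ gens, DifferentiableOn ℂ G.2 G.1.target
  gen : ∀ G ∈ gens, GeneratedOn sing dir G.1 G.2
  cover : ∀ x : M, ∃ G ∈ gens, x ∈ G.1.source
  compat : ∀ G ∈ gens, ∀ G' ∈ gens,
    ∃ g : E → ℂ, DifferentiableOn ℂ g (G.1.symm.trans G'.1).source ∧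
      ∀ y ∈ (G.1.symm.trans G'.1).source, g y ≠ 0 ∧
        deriv (fun ζ : ℂ => G'.1 (G.1.symm (y + ζ • G.2 y))) 0 = g y • G'.2 (G'.1 (G.1.symm y))

/-- A holomorphic map from the unit disc to `M`, outside the singular set, tangent to `F`. -/
def SingularFoliation.IsTangentDisc (F : SingularFoliation E M) (ψ : ℂ → M) : Prop :=
  MDifferentiableOn 𝓘(ℂ, ℂ) 𝓘(ℂ, E) ψ (ball 0 1) ∧
    ∀ ξ ∈ ball (0 : ℂ) 1, ψ ξ ∉ F.sing ∧ velocity ψ ξ ∈ F.dir (ψ ξ)

/-- The leaf topology on `M`: the finest topology such that all the holomorphic discs tangent to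
the foliation are continuous. -/
@[instance_reducible]
noncomputable def SingularFoliation.leafTopology (F : SingularFoliation E M) : TopologicalSpace M :=
  ⨆ ψ : {ψ : ℂ → M // F.IsTangentDisc ψ},
    TopologicalSpace.coinduced (fun ξ : ball (0 : ℂ) 1 => ψ.1 ξ) inferInstance

/-- `φ` is a universal covering, by the unit disc, of the leaf through `φ 0`: it is holomorphic,
immersive and tangent to the foliation, and it is a covering map over this leaf, which is the path
component of `φ 0` for the leaf topology. -/
def SingularFoliation.IsUniversalCovering (F : SingularFoliation E M) (φ : ℂ → M) : Prop :=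
  F.IsTangentDisc φ ∧ (∀ ξ ∈ ball (0 : ℂ) 1, velocity (E := E) φ ξ ≠ 0) ∧
    @IsCoveringMapOn (ball (0 : ℂ) 1) M _ F.leafTopology (fun ξ => φ ξ)
      (@pathComponent M F.leafTopology (φ 0))

/-- The leaf of `x` is hyperbolic: it is covered by the unit disc. -/
def SingularFoliation.IsHyperbolic (F : SingularFoliation E M) (x : M) : Prop :=
  ∃ φ : ℂ → M, F.IsUniversalCovering φ ∧ φ 0 = x

/-- A real `(1,1)`-form on the complex vector space `E`: it is real bilinear, alternating and
invariant under the multiplication by `i`. -/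
structure IsForm11 (β : E → E → ℝ) : Prop where
  add_left : ∀ u v w, β (u + v) w = β u w + β v w
  smul_left : ∀ (a : ℝ) v w, β ((a : ℂ) • v) w = a * β v w
  antisymm : ∀ v w, β w v = - β v w
  inv : ∀ v w, β (Complex.I • v) (Complex.I • w) = β v w

/-- A continuous real `(1,1)`-form on the complex manifold `M`. -/
structure Form11 (E M : Type*) [NormedAddCommGroup E] [NormedSpace ℂ E] [TopologicalSpace M]
    [ChartedSpace E M] [IsManifold 𝓘(ℂ, E) 1 M] where
  form : M → E → E → ℝ
  isForm11 : ∀ x, IsForm11 (form x)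
  cont : Continuous fun p : TangentBundle 𝓘(ℂ, E) M => form p.1 p.2 (Complex.I • (show E from p.2))

/-- A continuous positive `(1,1)`-form on the complex manifold `M` (the form of a Hermitian
metric; every Kaehler form is of this kind). -/
structure PosForm (E M : Type*) [NormedAddCommGroup E] [NormedSpace ℂ E] [TopologicalSpace M]
    [ChartedSpace E M] [IsManifold 𝓘(ℂ, E) 1 M] extends Form11 E M where
  pos : ∀ x v, v ≠ 0 → 0 < form x v (Complex.I • v)

/-- The value of `dd^c f = (i/π) ∂∂̄ f` on the pair of tangent vectors `(v, i v)` at `x`, namely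
`1/(2π)` times the Laplacian at `0` of `ζ ↦ f (x + ζ v)` (in the preferred chart at `x`). -/
noncomputable def ddc (f : M → ℝ) (x : M) (v : E) : ℝ :=
  1 / (2 * Real.pi) *
    Laplacian.laplacian (fun ζ : ℂ => f ((chartAt E x).symm (chartAt E x x + ζ • v))) 0

/-- A real current of bidimension `(1,1)` and of order `0` on the compact complex manifold `M`: a
linear functional on the real vector space of the continuous real `(1,1)`-forms. (All positive
currents are of this kind.) -/
structure Current (E M : Type*) [NormedAddCommGroup E] [NormedSpace ℂ E] [TopologicalSpace M]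
    [ChartedSpace E M] [IsManifold 𝓘(ℂ, E) 1 M] where
  val : Form11 E M → ℝ
  map_add : ∀ θ θ₁ θ₂ : Form11 E M,
    (∀ x u v, θ.form x u v = θ₁.form x u v + θ₂.form x u v) → val θ = val θ₁ + val θ₂
  map_smul : ∀ (c : ℝ) (θ θ₁ : Form11 E M),
    (∀ x u v, θ.form x u v = c * θ₁.form x u v) → val θ = c * val θ₁

variable [IsManifold 𝓘(ℂ, E) 1 M]

/-- `T` is a positive `dd^c`-closed current of bidimension `(1,1)` directed by the foliation
`F`. -/
structure IsDirectedDdcClosed (F : SingularFoliation E M) (T : Current E M) : Prop where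
  /-- `T` is positive: `⟨T, θ⟩ ≥ 0` for all positive `(1,1)`-forms `θ`. -/
  pos : ∀ θ : Form11 E M, (∀ x v, 0 ≤ θ.form x v (Complex.I • v)) → 0 ≤ T.val θ
  /-- `T` is directed by `F`: `⟨T, θ⟩ = 0` for all `(1,1)`-forms `θ` which vanish along the
  leaves. -/
  directed : ∀ θ : Form11 E M, (∀ x, x ∉ F.sing → ∀ v ∈ F.dir x,
    θ.form x v (Complex.I • v) = 0) → T.val θ = 0
  /-- `T` is `dd^c`-closed: `⟨T, dd^c f⟩ = 0` for all smooth functions `f`. -/
  closed : ∀ (f : M → ℝ) (θ : Form11 E M),
    ContMDiff 𝓘(ℝ, E) 𝓘(ℝ, ℝ) ((⊤ : ℕ∞) : WithTop ℕ∞) f →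
    (∀ x v, θ.form x v (Complex.I • v) = ddc f x v) → T.val θ = 0

/-- `T` is extremal among the positive `dd^c`-closed currents directed by `F`. -/
def IsExtremal (F : SingularFoliation E M) (T : Current E M) : Prop :=
  ∀ T₁ T₂ : Current E M, IsDirectedDdcClosed F T₁ → IsDirectedDdcClosed F T₂ →
    (∀ θ, T.val θ = T₁.val θ + T₂.val θ) → ∃ c : ℝ, ∀ θ, T₁.val θ = c * T.val θ

/-- `μ` is the trace measure `T ∧ ω` of the current `T`: `∫ f dμ = ⟨T, f ω⟩` for all continuous
functions `f`. (If `T` is positive, there is exactly one such Borel measure.) -/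
def IsTraceMeasure [MeasurableSpace M] (ω : PosForm E M) (T : Current E M) (μ : Measure M) :
    Prop :=
  ∀ (f : M → ℝ) (θ : Form11 E M), Continuous f →
    (∀ x u v, θ.form x u v = f x * ω.form x u v) → T.val θ = ∫ x, f x ∂μ

/-- `∫₀^r (dt / t) ∫_{𝔻(t)} φ^* θ`. -/
noncomputable def logAverage (θ : Form11 E M) (φ : ℂ → M) (r : ℝ) : ℝ :=
  ∫ t in (0 : ℝ)..r, (∫ ξ in ball (0 : ℂ) t,
    θ.form (φ ξ) (velocity φ ξ) (Complex.I • velocity φ ξ)) / t

/-- The value on `θ` of the Nevanlinna current
`τ_r = (1 / T(r)) ∫₀^r (dt / t) φ_* [𝔻(t)]`, where `T(r) = ∫₀^r (dt / t) ∫_{𝔻(t)} φ^* ω` is the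
Nevanlinna characteristic. -/
noncomputable def nevanlinna (ω : PosForm E M) (θ : Form11 E M) (φ : ℂ → M) (r : ℝ) : ℝ :=
  logAverage θ φ r / logAverage ω.toForm11 φ r

end Pool.Agent.Helper684.GE
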