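import Pool.Agent.Helper684.GE.Conv1
import Pool.Agent.Helper684.GX.Ergo.Final

/-!
Comparison of the definitions, second part, and the geometric ergodic theorem.
-/

set_option autoImplicit false

open scoped Manifold
open Metric MeasureTheory Set Filter Topology
open Pool.Agent.Helper684.GX

namespace Pool.Agent.Helper684.GE

variable {E M : Type*} [NormedAddCommGroup E] [NormedSpace ℂ E] [TopologicalSpace M]
  [ChartedSpace E M] [IsManifold 𝓘(ℂ, E) 1 M]

/-- the forms -/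
def toForm (θ : Form11 E M) : Ergo.Form11 E M where
  form := θ.form
  isForm11At x := ⟨(θ.isForm11 x).add_left, (θ.isForm11 x).smul_left, (θ.isForm11 x).antisymm,
    (θ.isForm11 x).inv⟩
  cont := θ.cont

/-- the forms -/
def ofForm (θ : Ergo.Form11 E M) : Form11 E M where
  form := θ.form
  isForm11 x := ⟨(θ.isForm11At x).add_left, (θ.isForm11At x).smul_left,
    (θ.isForm11At x).antisymm, (θ.isForm11At x).inv⟩
  cont := θ.cont

/-- the positive forms -/
def toPos (ω : PosForm E M) : Nev.PosForm E M where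
  form := ω.form
  isPositiveAt x := ⟨(ω.isForm11 x).add_left, (ω.isForm11 x).smul_left, (ω.isForm11 x).antisymm,
    (ω.isForm11 x).inv, ω.pos x⟩
  cont := ω.cont

/-- the currents -/
def toCur (T : Current E M) : Ergo.Current E M where
  val θ := T.val (ofForm θ)
  map_add θ θ₁ θ₂ h := T.map_add _ _ _ h
  map_smul c θ θ₁ h := T.map_smul c _ _ h

/-- the currents -/
def ofCur (T : Ergo.Current E M) : Current E M where
  val θ := T.val (toForm θ)
  map_add θ θ₁ θ₂ h := T.map_add _ _ _ h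
  map_smul c θ θ₁ h := T.map_smul c _ _ h

theorem ddc_eq [FiniteDimensional ℂ E] {f : M → ℝ}
    (hf : ContMDiff 𝓘(ℝ, E) 𝓘(ℝ, ℝ) ((⊤ : ℕ∞) : WithTop ℕ∞) f) (x : M) (v : E) :
    ddc f x v = Ergo.ddcForm (E := E) f x v := by
  unfold ddc Ergo.ddcForm
  congr 1
  symm
  apply Ergo.lap_eq_laplacian
  have h1 : ContDiffAt ℝ 2 (fun y => f ((chartAt E x).symm y)) (chartAt E x x) :=
    (Ergo.contDiffAt_comp_symm (IsManifold.chart_mem_maximalAtlas x) hf
      (mem_chart_target E x)).of_le (WithTop.coe_le_coe.2 (le_top : (2 : ℕ∞) ≤ ⊤))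
  have h2 : ContDiffAt ℝ 2 (fun ζ : ℂ => chartAt E x x + ζ • v) 0 := by
    apply ContDiff.contDiffAt
    exact contDiff_const.add (contDiff_id.smul contDiff_const)
  have h0 : chartAt E x x + (0 : ℂ) • v = chartAt E x x := by rw [zero_smul, add_zero]
  have h3 : ContDiffAt ℝ 2 (fun y => f ((chartAt E x).symm y)) (chartAt E x x + (0 : ℂ) • v) := by
    rw [h0]; exact h1
  exact ContDiffAt.comp (0 : ℂ) (f := fun ζ : ℂ => chartAt E x x + ζ • v) h3 h2

theorem toCur_closed [FiniteDimensional ℂ E] {F : SingularFoliation E M} {T : Current E M}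
    (hT : IsDirectedDdcClosed F T) : Ergo.IsDirectedDdcClosed (toFol F) (toCur T) where
  pos θ h := hT.pos (ofForm θ) h
  directed θ h := hT.directed (ofForm θ) h
  closed f θ hf h := hT.closed f (ofForm θ) hf fun x v => by
    rw [ddc_eq hf]
    exact h x v

theorem ofCur_closed [FiniteDimensional ℂ E] {F : SingularFoliation E M} {T : Ergo.Current E M}
    (hT : Ergo.IsDirectedDdcClosed (toFol F) T) : IsDirectedDdcClosed F (ofCur T) where
  pos θ h := hT.pos (toForm θ) h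
  directed θ h := hT.directed (toForm θ) h
  closed f θ hf h := hT.closed f (toForm θ) hf fun x v => by
    have h1 := h x v
    rw [ddc_eq hf] at h1
    exact h1

theorem toCur_extremal [FiniteDimensional ℂ E] {F : SingularFoliation E M} {T : Current E M}
    (hT : IsExtremal F T) : Ergo.IsExtremalDirected (toFol F) (toCur T) := by
  intro T₁ T₂ h₁ h₂ hsum
  obtain ⟨c, hc⟩ := hT (ofCur T₁) (ofCur T₂) (ofCur_closed h₁) (ofCur_closed h₂)
    (fun θ => hsum (toForm θ))
  exact ⟨c, fun θ => hc (ofForm θ)⟩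

theorem logAverage_eq {φ : ℂ → M}
    (hφ : ∀ ξ ∈ ball (0 : ℂ) 1, MDifferentiableAt 𝓘(ℂ, ℂ) 𝓘(ℂ, E) φ ξ) (θ : Form11 E M) {r : ℝ}
    (hr : 0 < r) (hr1 : r < 1) :
    logAverage θ φ r =
      ∫ t in (0 : ℝ)..r, (∫ ξ in ball (0 : ℂ) t, Ergo.pull11 (toForm θ) φ ξ) / t := by
  unfold logAverage
  refine intervalIntegral.integral_congr fun t ht => ?_
  rw [uIcc_of_le hr.le] at ht
  congr 1
  refine setIntegral_congr_fun measurableSet_ball fun ξ hξ => ?_
  have hξ' : ξ ∈ ball (0 : ℂ) 1 := ball_subset_ball (ht.2.trans hr1.le) hξ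
  rw [Ergo.pull11_eq, velocity_eq (hφ ξ hξ')]
  rfl

theorem nevanlinna_eq {φ : ℂ → M}
    (hφ : ∀ ξ ∈ ball (0 : ℂ) 1, MDifferentiableAt 𝓘(ℂ, ℂ) 𝓘(ℂ, E) φ ξ) (ω : PosForm E M)
    (θ : Form11 E M) {r : ℝ} (hr : 0 < r) (hr1 : r < 1) :
    nevanlinna ω θ φ r = Ergo.nevanlinna (toPos ω) (toForm θ) φ r := by
  unfold nevanlinna Ergo.nevanlinna
  rw [logAverage_eq hφ θ hr hr1, logAverage_eq hφ ω.toForm11 hr hr1]
  rfl

/-- **Geometric ergodic theorem** for singular holomorphic foliations with arbitrary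
singularities. -/
theorem geometric_ergodic {E M : Type*} [NormedAddCommGroup E] [NormedSpace ℂ E]
    [FiniteDimensional ℂ E] [TopologicalSpace M] [T2Space M] [CompactSpace M] [ChartedSpace E M]
    [IsManifold 𝓘(ℂ, E) 1 M] [MeasurableSpace M] [BorelSpace M]
    (ω : PosForm E M) (F : SingularFoliation E M) (T : Current E M)
    (hT : IsDirectedDdcClosed F T) (hext : IsExtremal F T)
    (μ : Measure M) [IsProbabilityMeasure μ] (hμ : IsTraceMeasure ω T μ)
    (hhyp : ∀ᵐ a ∂μ, F.IsHyperbolic a) :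
    ∀ᵐ a ∂μ, ∀ φ : ℂ → M, F.IsUniversalCovering φ → φ 0 = a →
      ∀ θ : Form11 E M, Tendsto (nevanlinna ω θ φ) (𝓝[<] 1) (𝓝 (T.val θ)) := by
  have hhyp' : ∀ᵐ a ∂μ, Ergo.IsHyperbolic (toFol F) a := by
    filter_upwards [hhyp] with a ha
    obtain ⟨φ, hφ, hφ0⟩ := ha
    exact ⟨φ, (isUniversalCovering_iff F φ).1 hφ, hφ0⟩
  have h := Ergo.geometric_ergodic_final (toPos ω) (toSing F) (toCur T) (toCur_closed hT)
    (toCur_extremal hext) μ (fun f θ hf hθ => hμ f (ofForm θ) hf hθ) hhyp'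
  filter_upwards [h] with a ha
  intro φ hφ hφ0 θ
  have hφ' := (isUniversalCovering_iff F φ).1 hφ
  have h1 := ha φ hφ' hφ0 (toForm θ)
  have hdiff : ∀ ξ ∈ ball (0 : ℂ) 1, MDifferentiableAt 𝓘(ℂ, ℂ) 𝓘(ℂ, E) φ ξ := fun ξ hξ =>
    hφ.1.1.mdifferentiableAt (isOpen_ball.mem_nhds hξ)
  refine Tendsto.congr' ?_ h1
  filter_upwards [Ioo_mem_nhdsLT (show (0 : ℝ) < 1 by norm_num)] with r hr
  exact (nevanlinna_eq hdiff ω θ hr.1 hr.2).symm

end Pool.Agent.Helper684.GE
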